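import Mathlib

set_option autoImplicit false

namespace Pool.Agent.Results.MP_6fdec2_co.FanoDeformation

/-- A simplicial complex with vertex set `Fin n`: a family of faces closed under taking subsets
that contains every singleton. -/
structure Complex (n : ℕ) where
  faces : Set (Finset (Fin n))
  down_closed : ∀ s ∈ faces, ∀ t ⊆ s, t ∈ faces
  singleton_mem : ∀ i, {i} ∈ faces

/-- The kernel of the linear form `∑ i, a i * x i`. -/
def hyperplane {n : ℕ} {K : Type} [Field K] (a : Fin n → K) : Submodule K (Fin n → K) :=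
  LinearMap.ker (∑ i, a i • (LinearMap.proj i : (Fin n → K) →ₗ[K] K))

/-- The generalized deformation of the complex `Δ` over the field `K`: the set of all kernels of
linear forms whose support is a nonempty face of `Δ`. -/
def deformation {n : ℕ} (Δ : Complex n) (K : Type) [Field K] : Set (Submodule K (Fin n → K)) :=
  {H | ∃ s ∈ Δ.faces, s.Nonempty ∧ ∃ a : Fin n → K, (∀ i, a i ≠ 0 ↔ i ∈ s) ∧ H = hyperplane a}

instance {n : ℕ} {K : Type} [Field K] [Fintype K] : Finite (Submodule K (Fin n → K)) :=
  Finite.of_injective (fun W : Submodule K (Fin n → K) => (W : Set (Fin n → K)))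
    SetLike.coe_injective

open Classical in
/-- The characteristic polynomial of an arrangement `A` of subspaces of `K ^ n`, `K` a finite
field: the sum over all `I ⊆ A` of `(-1) ^ |I| * t ^ dim (⋂ H ∈ I, H)`, the empty intersection
being `K ^ n`. -/
noncomputable def charPoly {n : ℕ} {K : Type} [Field K] [Fintype K]
    (A : Set (Submodule K (Fin n → K))) : Polynomial ℤ :=
  ∑ I ∈ (Set.toFinite A).toFinset.powerset,
    (-1) ^ I.card * Polynomial.X ^ (Module.finrank K (I.inf id : Submodule K (Fin n → K)))

/-- The polynomial `P` in two variables interpolates the characteristic polynomials of the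
deformations of `Δ` over all finite fields. -/
def Interpolates {n : ℕ} (Δ : Complex n) (P : MvPolynomial (Fin 2) ℂ) : Prop :=
  ∀ (K : Type) [Field K] [Fintype K] (t : ℂ),
    Polynomial.aeval t (charPoly (deformation Δ K)) =
      MvPolynomial.eval ![(Fintype.card K : ℂ), t] P

/-- The same, for the fields with a prime number of elements only. -/
def InterpolatesPrimes {n : ℕ} (Δ : Complex n) (P : MvPolynomial (Fin 2) ℂ) : Prop :=
  ∀ (p : ℕ) [Fact p.Prime] (t : ℂ),
    Polynomial.aeval t (charPoly (deformation Δ (ZMod p))) = MvPolynomial.eval ![(p : ℂ), t] P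

/-! ### The finite field method -/

section Method

variable {n : ℕ} {K : Type} [Field K] [Fintype K]

omit [Fintype K] in
theorem mem_hyperplane (a x : Fin n → K) : x ∈ hyperplane a ↔ ∑ i, a i * x i = 0 := by
  unfold hyperplane
  rw [LinearMap.mem_ker]
  simp

open Classical in
theorem eval_charPoly (A : Set (Submodule K (Fin n → K))) (k : ℕ) :
    (charPoly A).eval ((Fintype.card K : ℤ) ^ k) =
      (Finset.univ.filter fun c : Fin k → Fin n → K => ∀ H ∈ A, ∃ j, c j ∉ H).card := by
  let S : Submodule K (Fin n → K) → Finset (Fin k → Fin n → K) := fun H =>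
    Finset.univ.filter fun c => ∀ j, c j ∈ H
  have h := Finset.inclusion_exclusion_card_inf_compl (Set.toFinite A).toFinset S
  have h1 : ((Set.toFinite A).toFinset.inf fun i => (S i)ᶜ) =
      Finset.univ.filter fun c : Fin k → Fin n → K => ∀ H ∈ A, ∃ j, c j ∉ H := by
    ext c
    rw [Finset.mem_inf, Finset.mem_filter]
    constructor
    · intro hc
      refine ⟨Finset.mem_univ _, fun H hH => ?_⟩
      have h2 := hc H ((Set.toFinite A).mem_toFinset.2 hH)
      by_contra h3
      push Not at h3
      exact Finset.mem_compl.1 h2 (Finset.mem_filter.2 ⟨Finset.mem_univ _, h3⟩)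
    · rintro ⟨_, hc⟩ H hH
      obtain ⟨j, hj⟩ := hc H ((Set.toFinite A).mem_toFinset.1 hH)
      exact Finset.mem_compl.2 fun h3 => hj ((Finset.mem_filter.1 h3).2 j)
  rw [h1] at h
  rw [h]
  unfold charPoly
  rw [Polynomial.eval_finsetSum]
  refine Finset.sum_congr rfl fun I _ => ?_
  have h2 : (I.inf S).card = Fintype.card K ^ (k * Module.finrank K
      (I.inf id : Submodule K (Fin n → K))) := by
    have h3 : I.inf S = Fintype.piFinset fun _ : Fin k =>
        (Finset.univ.filter fun x : Fin n → K => x ∈ (I.inf id : Submodule K (Fin n → K))) := by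
      ext c
      rw [Finset.mem_inf, Fintype.mem_piFinset]
      simp only [S, Finset.mem_filter, Finset.mem_univ, true_and, Submodule.mem_finsetInf, id]
      tauto
    rw [h3, Fintype.card_piFinset_const]
    have h4 : (Finset.univ.filter fun x : Fin n → K =>
        x ∈ (I.inf id : Submodule K (Fin n → K))).card =
        Fintype.card K ^ Module.finrank K (I.inf id : Submodule K (Fin n → K)) := by
      rw [← Fintype.card_subtype]
      rw [← Module.card_eq_pow_finrank (K := K) (V := (I.inf id : Submodule K (Fin n → K)))]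
    rw [h4, ← pow_mul, mul_comm]
  rw [h2]
  simp only [Polynomial.eval_mul, Polynomial.eval_pow, Polynomial.eval_neg, Polynomial.eval_one,
    Polynomial.eval_X]
  push_cast
  rw [← pow_mul]

end Method

/-! ### The Fano plane -/

/-- the lines of the Fano plane; the point `i` is the binary expansion of `i + 1` -/
def lines : Finset (Finset (Fin 7)) :=
  {{0, 1, 2}, {0, 3, 4}, {0, 5, 6}, {1, 3, 5}, {1, 4, 6}, {2, 3, 6}, {2, 4, 5}}

/-- the complex of all sets with at most two elements, all triples that are not lines, and the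
lines in `U` -/
def cplx (U : Finset (Finset (Fin 7))) : Complex 7 where
  faces := {s | s.card ≤ 2 ∨ (s.card = 3 ∧ (s ∉ lines ∨ s ∈ U))}
  down_closed := by
    intro s hs t hts
    rcases eq_or_ne t s with rfl | hne
    · exact hs
    · have h1 := Finset.card_lt_card (hts.ssubset_of_ne hne)
      left
      rcases hs with h | h
      · omega
      · omega
  singleton_mem := fun i => Or.inl (by simp)

section Fano

variable {K : Type} [Field K]

/-- no linear form with support `s` vanishes on the columns -/
def Good (c : Fin 3 → Fin 7 → K) (s : Finset (Fin 7)) : Prop :=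
  ∀ a : Fin 7 → K, (∀ i, a i ≠ 0 ↔ i ∈ s) → ∃ j, ∑ i, a i * c j i ≠ 0

/-- independence on all small sets and all triples that are not lines -/
def Base (c : Fin 3 → Fin 7 → K) : Prop :=
  ∀ s : Finset (Fin 7), s.Nonempty → (s.card ≤ 2 ∨ (s.card = 3 ∧ s ∉ lines)) → Good c s

theorem lines_card' : ∀ s ∈ lines, s.card = 3 := by
  decide +kernel

theorem lines_card {s : Finset (Fin 7)} (hs : s ∈ lines) : s.card = 3 := lines_card' s hs

theorem avoid_iff {U : Finset (Finset (Fin 7))} (hU : U ⊆ lines) (c : Fin 3 → Fin 7 → K) :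
    (∀ H ∈ deformation (cplx U) K, ∃ j, c j ∉ H) ↔ Base c ∧ ∀ s ∈ U, Good c s := by
  constructor
  · intro h
    constructor
    · intro s hs hs' a ha
      obtain ⟨j, hj⟩ := h (hyperplane a) ⟨s, by
        rcases hs' with h' | h'
        · exact Or.inl h'
        · exact Or.inr ⟨h'.1, Or.inl h'.2⟩, hs, a, ha, rfl⟩
      rw [mem_hyperplane] at hj
      exact ⟨j, hj⟩
    · intro s hs a ha
      have h3 := lines_card (hU hs)
      obtain ⟨j, hj⟩ := h (hyperplane a) ⟨s, Or.inr ⟨h3, Or.inr hs⟩,
        Finset.card_pos.1 (by omega), a, ha, rfl⟩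
      rw [mem_hyperplane] at hj
      exact ⟨j, hj⟩
  · rintro ⟨h1, h2⟩ H ⟨s, hs, hne, a, ha, rfl⟩
    have : Good c s := by
      rcases hs with h | ⟨h, h' | h'⟩
      · exact h1 s hne (Or.inl h)
      · exact h1 s hne (Or.inr ⟨h, h'⟩)
      · exact h2 s h'
    obtain ⟨j, hj⟩ := this a ha
    exact ⟨j, by rwa [mem_hyperplane]⟩

open Classical in
/-- the number of representations of the Fano plane over `K` -/
noncomputable def fanoCount (K : Type) [Field K] [Fintype K] : ℕ :=
  (Finset.univ.filter fun c : Fin 3 → Fin 7 → K => Base c ∧ ∀ s ∈ lines, ¬ Good c s).card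

open Classical in
theorem fanoCount_eq (K : Type) [Field K] [Fintype K] :
    (fanoCount K : ℤ) = ∑ U ∈ lines.powerset,
      (-1) ^ U.card * (charPoly (deformation (cplx U) K)).eval ((Fintype.card K : ℤ) ^ 3) := by
  have h := Finset.inclusion_exclusion_sum_inf_compl (G := ℤ) lines
    (fun s => Finset.univ.filter fun c : Fin 3 → Fin 7 → K => Good c s)
    (fun c => if Base c then 1 else 0)
  have h1 : (fanoCount K : ℤ) = ∑ c ∈ lines.inf fun s =>
      (Finset.univ.filter fun c : Fin 3 → Fin 7 → K => Good c s)ᶜ, if Base c then 1 else 0 := by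
    unfold fanoCount
    rw [← Finset.sum_filter, Finset.sum_const, nsmul_eq_mul, mul_one]
    congr 2
    ext c
    rw [Finset.mem_filter, Finset.mem_filter, Finset.mem_inf]
    simp
    tauto
  rw [h1, h]
  refine Finset.sum_congr rfl fun U hU => ?_
  rw [Finset.mem_powerset] at hU
  rw [eval_charPoly, smul_eq_mul]
  congr 1
  rw [← Finset.sum_filter, Finset.sum_const, nsmul_eq_mul, mul_one]
  congr 2
  ext c
  rw [Finset.mem_filter, Finset.mem_filter, Finset.mem_inf, avoid_iff hU]
  simp
  tauto

theorem independent {c : Fin 3 → Fin 7 → K} (hc : Base c) {x y z : K}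
    (h : ∀ j, x * c j 0 + y * c j 1 + z * c j 3 = 0) : x = 0 ∧ y = 0 ∧ z = 0 := by
  classical
  by_contra hne
  let a : Fin 7 → K := ![x, y, 0, z, 0, 0, 0]
  let s : Finset (Fin 7) := Finset.univ.filter fun i => a i ≠ 0
  have hs : s ⊆ {0, 1, 3} := by
    intro i hi
    have hi' : a i ≠ 0 := (Finset.mem_filter.1 hi).2
    fin_cases i <;> first | decide | exact absurd rfl hi'
  have hsne : s.Nonempty := by
    by_contra hempty
    rw [Finset.not_nonempty_iff_eq_empty] at hempty
    apply hne
    have key : ∀ i, a i = 0 := by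
      intro i
      by_contra hi
      have : i ∈ s := Finset.mem_filter.2 ⟨Finset.mem_univ _, hi⟩
      rw [hempty] at this
      exact absurd this (Finset.notMem_empty _)
    exact ⟨key 0, key 1, key 3⟩
  have hcard : s.card ≤ 3 := (Finset.card_le_card hs).trans (by decide)
  have hgood : Good c s := by
    refine hc s hsne ?_
    rcases Nat.lt_or_ge s.card 3 with h3 | h3
    · left; omega
    · right
      have : s = {0, 1, 3} := Finset.eq_of_subset_of_card_le hs (by
        have : ({0, 1, 3} : Finset (Fin 7)).card = 3 := by decide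
        omega)
      rw [this]
      exact ⟨by decide +kernel, by decide +kernel⟩
  obtain ⟨j, hj⟩ := hgood a fun i => by simp [s]
  apply hj
  have := h j
  simp [Fin.sum_univ_succ, a]
  linear_combination this

theorem dependent {c : Fin 3 → Fin 7 → K} {x y z : Fin 7} (hxy : x ≠ y) (hxz : x ≠ z)
    (hyz : y ≠ z) (h : ¬ Good c {x, y, z}) :
    ∃ u v : K, u ≠ 0 ∧ v ≠ 0 ∧ ∀ j, c j z = u * c j x + v * c j y := by
  unfold Good at h
  push Not at h
  obtain ⟨a, ha, h⟩ := h
  have hx : a x ≠ 0 := (ha x).2 (by simp)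
  have hy : a y ≠ 0 := (ha y).2 (by simp)
  have hz : a z ≠ 0 := (ha z).2 (by simp)
  refine ⟨-(a x / a z), -(a y / a z), neg_ne_zero.2 (div_ne_zero hx hz),
    neg_ne_zero.2 (div_ne_zero hy hz), fun j => ?_⟩
  have h1 := h j
  have h2 : ∑ i, a i * c j i = ∑ i ∈ ({x, y, z} : Finset (Fin 7)), a i * c j i := by
    symm
    refine Finset.sum_subset (Finset.subset_univ _) fun i _ hi => ?_
    have : a i = 0 := by
      by_contra h3
      exact hi ((ha i).1 h3)
    rw [this, zero_mul]
  rw [h2, Finset.sum_insert (by simp [hxy, hxz]), Finset.sum_insert (by simp [hyz]),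
    Finset.sum_singleton] at h1
  field_simp
  linear_combination h1

/-- the Fano plane is not representable in characteristic different from two -/
theorem no_fano (h2 : (2 : K) ≠ 0) (c : Fin 3 → Fin 7 → K) (hc : Base c)
    (hl : ∀ s ∈ lines, ¬ Good c s) : False := by
  obtain ⟨a0, a1, ha0, ha1, ha⟩ := dependent (x := 0) (y := 1) (z := 2) (by decide) (by decide)
    (by decide) (hl _ (by decide +kernel))
  obtain ⟨b0, b3, hb0, hb3, hb⟩ := dependent (x := 0) (y := 3) (z := 4) (by decide) (by decide)
    (by decide) (hl _ (by decide +kernel))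
  obtain ⟨c1, c3, hc1, hc3, hcc⟩ := dependent (x := 1) (y := 3) (z := 5) (by decide) (by decide)
    (by decide) (hl _ (by decide +kernel))
  obtain ⟨d0, d5, hd0, hd5, hd⟩ := dependent (x := 0) (y := 5) (z := 6) (by decide) (by decide)
    (by decide) (hl _ (by decide +kernel))
  obtain ⟨e1, e4, he1, he4, he⟩ := dependent (x := 1) (y := 4) (z := 6) (by decide) (by decide)
    (by decide) (hl _ (by decide +kernel))
  obtain ⟨f2, f3, hf2, hf3, hf⟩ := dependent (x := 2) (y := 3) (z := 6) (by decide) (by decide)
    (by decide) (hl _ (by decide +kernel))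
  obtain ⟨g2, g4, hg2, hg4, hg⟩ := dependent (x := 2) (y := 4) (z := 5) (by decide) (by decide)
    (by decide) (hl _ (by decide +kernel))
  obtain ⟨k1, k2, k3⟩ := independent hc (x := d0 - e4 * b0) (y := d5 * c1 - e1)
    (z := d5 * c3 - e4 * b3) fun j => by
      have q1 := hd j
      have q2 := he j
      rw [hcc j] at q1
      rw [hb j] at q2
      linear_combination q2 - q1
  obtain ⟨l1, l2, l3⟩ := independent hc (x := d0 - f2 * a0) (y := d5 * c1 - f2 * a1)
    (z := d5 * c3 - f3) fun j => by
      have q1 := hd j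
      have q2 := hf j
      rw [hcc j] at q1
      rw [ha j] at q2
      linear_combination q2 - q1
  obtain ⟨m1, m2, m3⟩ := independent hc (x := g2 * a0 + g4 * b0) (y := g2 * a1 - c1)
    (z := g4 * b3 - c3) fun j => by
      have q1 := hg j
      rw [hcc j, ha j, hb j] at q1
      linear_combination -q1
  have n1 : f2 = d5 * g2 := by
    apply mul_right_cancel₀ ha1
    linear_combination -l2 - d5 * m2
  have n2 : e4 = d5 * g4 := by
    apply mul_right_cancel₀ hb3
    linear_combination -k3 - d5 * m3
  have n3 : 2 * (d5 * (g2 * a0)) = 0 := by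
    rw [n1] at l1
    rw [n2] at k1
    linear_combination d5 * m1 + k1 - l1
  exact mul_ne_zero h2 (mul_ne_zero hd5 (mul_ne_zero hg2 ha0)) n3

/-- the Fano plane over the field with two elements -/
def fano2 : Fin 3 → Fin 7 → ZMod 2 :=
  ![![1, 0, 1, 0, 1, 0, 1], ![0, 1, 1, 0, 0, 1, 1], ![0, 0, 0, 1, 1, 1, 1]]

theorem fano2_aux : ∀ a : Fin 7 → ZMod 2, (Finset.univ.filter fun i => a i ≠ 0).Nonempty →
    ((Finset.univ.filter fun i => a i ≠ 0).card ≤ 2 ∨
      ((Finset.univ.filter fun i => a i ≠ 0).card = 3 ∧
        (Finset.univ.filter fun i => a i ≠ 0) ∉ lines)) →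
    ∃ j, ∑ i, a i * fano2 j i ≠ 0 := by
  decide +kernel

theorem fano2_lines : ∀ s ∈ lines, ∀ j, ∑ i, (if i ∈ s then 1 else 0) * fano2 j i = 0 := by
  decide +kernel

theorem fano2_spec : Base fano2 ∧ ∀ s ∈ lines, ¬ Good fano2 s := by
  classical
  constructor
  · intro s hs hs' a ha
    have : s = Finset.univ.filter fun i => a i ≠ 0 := by
      ext i
      rw [Finset.mem_filter, ha i]
      simp
    rw [this] at hs hs'
    exact fano2_aux a (by convert hs) (by convert hs')
  · intro s hs hgood
    obtain ⟨j, hj⟩ := hgood (fun i => if i ∈ s then 1 else 0) (fun i => by simp)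
    exact hj (fano2_lines s hs j)

theorem fanoCount_pos {K : Type} [Field K] [Fintype K] (c : Fin 3 → Fin 7 → K)
    (h : Base c ∧ ∀ s ∈ lines, ¬ Good c s) : 0 < fanoCount K := by
  classical
  unfold fanoCount
  rw [Finset.card_pos]
  exact ⟨c, Finset.mem_filter.2 ⟨Finset.mem_univ c, h⟩⟩

theorem fanoCount_two : 0 < fanoCount (ZMod 2) := fanoCount_pos fano2 fano2_spec

theorem fanoCount_odd {p : ℕ} [Fact p.Prime] (hp : p ≠ 2) : fanoCount (ZMod p) = 0 := by
  classical
  unfold fanoCount
  rw [Finset.card_eq_zero, Finset.filter_eq_empty_iff]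
  rintro c - ⟨h1, h2⟩
  refine no_fano ?_ c h1 h2
  intro h
  have h3 : ((2 : ℕ) : ZMod p) = 0 := by exact_mod_cast h
  rw [ZMod.natCast_eq_zero_iff] at h3
  exact hp ((Nat.prime_dvd_prime_iff_eq (Fact.out) Nat.prime_two).1 h3)

end Fano

theorem exists_bad : ∃ U ∈ lines.powerset, ¬ ∃ P, InterpolatesPrimes (cplx U) P := by
  by_contra hcon
  push Not at hcon
  choose! P hP using hcon
  let F : Polynomial ℂ := ∑ U ∈ lines.powerset,
    (-1) ^ U.card * MvPolynomial.aeval ![Polynomial.X, Polynomial.X ^ 3] (P U)
  have hF : ∀ (p : ℕ) [Fact p.Prime], F.eval (p : ℂ) = (fanoCount (ZMod p) : ℂ) := by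
    intro p hp
    have h1 := fanoCount_eq (ZMod p)
    have h2 := congrArg (fun z : ℤ => (z : ℂ)) h1
    simp only [Int.cast_natCast, Int.cast_sum, Int.cast_mul, Int.cast_pow, Int.cast_neg,
      Int.cast_one] at h2
    rw [h2]
    simp only [F]
    rw [Polynomial.eval_finsetSum]
    refine Finset.sum_congr rfl fun U hU => ?_
    have h3 := hP U hU p ((p : ℂ) ^ 3)
    rw [Polynomial.eval_mul, Polynomial.eval_pow, Polynomial.eval_neg, Polynomial.eval_one]
    congr 1
    have h4 : (MvPolynomial.aeval ![Polynomial.X, Polynomial.X ^ 3] (P U) : Polynomial ℂ).eval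
        (p : ℂ) = MvPolynomial.eval ![(p : ℂ), (p : ℂ) ^ 3] (P U) := by
      rw [← Polynomial.coe_evalRingHom, MvPolynomial.aeval_def, MvPolynomial.hom_eval₂]
      have e1 : (Polynomial.evalRingHom (p : ℂ)).comp (algebraMap ℂ (Polynomial ℂ)) =
          RingHom.id ℂ := by
        ext x; simp
      have e2 : (fun i => (Polynomial.evalRingHom (p : ℂ))
          ((![Polynomial.X, Polynomial.X ^ 3] : Fin 2 → Polynomial ℂ) i)) =
          ![(p : ℂ), (p : ℂ) ^ 3] := by
        ext i
        fin_cases i <;> simp
      rw [e1, e2]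
      rfl
    rw [h4, ← h3, ZMod.card, Polynomial.aeval_def, Polynomial.eval₂_eq_eval_map]
    have h5 := Polynomial.eval_intCast_map (Int.castRingHom ℂ)
      (charPoly (deformation (cplx U) (ZMod p))) ((p : ℤ) ^ 3)
    simpa using h5
  have hzero : F = 0 := by
    refine Polynomial.eq_zero_of_infinite_isRoot F ?_
    have hinf : ({p : ℕ | p.Prime} \ {2}).Infinite := Nat.infinite_setOfPred_prime.sdiff (Set.finite_singleton 2)
    refine (hinf.image (f := fun p : ℕ => (p : ℂ)) (Nat.cast_injective.injOn)).mono ?_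
    rintro _ ⟨p, ⟨hp, hp2⟩, rfl⟩
    have : Fact p.Prime := ⟨hp⟩
    show F.eval (p : ℂ) = 0
    rw [hF p, fanoCount_odd hp2]
    simp
  have h2 := hF 2
  rw [hzero, Polynomial.eval_zero] at h2
  have h3 : fanoCount (ZMod 2) = 0 := by exact_mod_cast h2.symm
  have := fanoCount_two
  omega

/-- There is a simplicial complex on seven vertices, with all faces of at most three elements and
with all pairs as faces, such that no polynomial in two variables interpolates the characteristic
polynomials of its deformations over all finite fields, nor even over all prime fields. -/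
theorem result :
    ∃ Δ : Complex 7, (∀ s ∈ Δ.faces, s.card ≤ 3) ∧ (∀ s : Finset (Fin 7), s.card ≤ 2 → s ∈ Δ.faces) ∧
      (¬ ∃ P, Interpolates Δ P) ∧ ¬ ∃ P, InterpolatesPrimes Δ P := by
  obtain ⟨U, _, hU⟩ := exists_bad
  refine ⟨cplx U, ?_, fun s hs => Or.inl hs, ?_, hU⟩
  · rintro s (h | h)
    · omega
    · omega
  · rintro ⟨P, hP⟩
    refine hU ⟨P, fun p hp t => ?_⟩
    have := hP (ZMod p) t
    rwa [ZMod.card] at this

end Pool.Agent.Results.MP_6fdec2_co.FanoDeformation
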